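import Pool.Agent.LPW.StmtsF

/-!
Squad LPW, row DIO: small integral combinations.
-/

set_option autoImplicit false

namespace Pool.Agent.LPW.H1

open Polynomial NumberField Filter Topology
open Pool.Agent.LPW

/-- simultaneous approximation -/
theorem dirichlet {r : ℕ} (a : Fin r → ℝ) {η : ℝ} (hη : 0 < η) :
    ∃ q q' : ℕ, q < q' ∧ ∀ i, |Int.fract ((q' : ℝ) * a i) - Int.fract ((q : ℝ) * a i)| < η := by
  obtain ⟨x, hx⟩ : ∃ x : ℕ → Fin r → ℝ, x = fun (q : ℕ) (i : Fin r) => Int.fract ((q : ℝ) * a i) :=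
    ⟨_, rfl⟩
  have hmem : ∀ q, x q ∈ Set.Icc (0 : Fin r → ℝ) 1 := by
    intro q
    rw [hx]
    exact ⟨fun i => Int.fract_nonneg _, fun i => (Int.fract_lt_one _).le⟩
  obtain ⟨b, -, φ, hφ, hlim⟩ := isCompact_Icc.tendsto_subseq hmem
  obtain ⟨N, hN⟩ := Metric.cauchySeq_iff'.1 hlim.cauchySeq η hη
  refine ⟨φ N, φ (N + 1), hφ (Nat.lt_succ_self N), fun i => ?_⟩
  have h1 := hN (N + 1) (Nat.le_succ N)
  have h2 := (dist_le_pi_dist ((x ∘ φ) (N + 1)) ((x ∘ φ) N) i).trans_lt h1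
  rw [Real.dist_eq, hx] at h2
  exact h2

theorem dio : DioStmt := by
  intro hdep r n Λ hdet δ hδ
  obtain ⟨α, hα, hαΛ⟩ := hdep ℝ r n Λ hdet
  obtain ⟨i₀, hi₀⟩ := Function.ne_iff.1 hα
  have hi₀' : α i₀ ≠ 0 := hi₀
  obtain ⟨a, ha⟩ : ∃ a : Fin r → ℝ, a = fun i => α i / α i₀ := ⟨_, rfl⟩
  have ha0 : a i₀ = 1 := by
    rw [ha]
    exact div_self hi₀'
  have haΛ : ∀ j, ∑ i, a i * Λ i j = 0 := by
    intro j
    have h1 : ∑ i, a i * Λ i j = (∑ i, α i * Λ i j) / α i₀ := by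
      rw [Finset.sum_div, ha]
      exact Finset.sum_congr rfl fun i _ => by ring
    rw [h1, hαΛ, zero_div]
  obtain ⟨M, hM⟩ : ∃ M : ℝ, M = ∑ i, ∑ j, |Λ i j| := ⟨_, rfl⟩
  have hM0 : 0 ≤ M := by
    rw [hM]
    exact Finset.sum_nonneg fun i _ => Finset.sum_nonneg fun j _ => abs_nonneg _
  obtain ⟨q, q', hq, hqq⟩ := dirichlet a (η := δ / (1 + M)) (by positivity)
  refine ⟨fun i => ⌊(q' : ℝ) * a i⌋ - ⌊(q : ℝ) * a i⌋, ?_, ?_⟩
  · intro h
    have h1 := congrFun h i₀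
    simp only [ha0, mul_one, Int.floor_natCast, Pi.zero_apply] at h1
    omega
  · intro j
    have h1 : ∀ i, (((⌊(q' : ℝ) * a i⌋ - ⌊(q : ℝ) * a i⌋ : ℤ)) : ℝ) =
        ((q' : ℝ) - q) * a i - (Int.fract ((q' : ℝ) * a i) - Int.fract ((q : ℝ) * a i)) := by
      intro i
      have h2 := Int.floor_add_fract ((q' : ℝ) * a i)
      have h3 := Int.floor_add_fract ((q : ℝ) * a i)
      push_cast
      linarith
    have h2 : ∑ i, (((⌊(q' : ℝ) * a i⌋ - ⌊(q : ℝ) * a i⌋ : ℤ)) : ℝ) * Λ i j =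
        -∑ i, (Int.fract ((q' : ℝ) * a i) - Int.fract ((q : ℝ) * a i)) * Λ i j := by
      have h3 : ∀ i, (((⌊(q' : ℝ) * a i⌋ - ⌊(q : ℝ) * a i⌋ : ℤ)) : ℝ) * Λ i j =
          ((q' : ℝ) - q) * (a i * Λ i j) -
            (Int.fract ((q' : ℝ) * a i) - Int.fract ((q : ℝ) * a i)) * Λ i j := by
        intro i
        rw [h1]
        ring
      simp only [h3]
      rw [Finset.sum_sub_distrib, ← Finset.mul_sum, haΛ, mul_zero, zero_sub]
    rw [h2, abs_neg]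
    have h4 : |∑ i, (Int.fract ((q' : ℝ) * a i) - Int.fract ((q : ℝ) * a i)) * Λ i j| ≤
        ∑ i, δ / (1 + M) * |Λ i j| := by
      refine (Finset.abs_sum_le_sum_abs _ _).trans (Finset.sum_le_sum fun i _ => ?_)
      rw [abs_mul]
      exact mul_le_mul_of_nonneg_right (hqq i).le (abs_nonneg _)
    rw [← Finset.mul_sum] at h4
    have h5 : ∑ i, |Λ i j| ≤ M := by
      rw [hM]
      exact Finset.sum_le_sum fun i _ =>
        Finset.single_le_sum (f := fun j => |Λ i j|) (fun j _ => abs_nonneg _) (Finset.mem_univ j)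
    have h6 : δ / (1 + M) * ∑ i, |Λ i j| ≤ δ / (1 + M) * M :=
      mul_le_mul_of_nonneg_left h5 (by positivity)
    have h7 : δ / (1 + M) * M < δ := by
      rw [div_mul_eq_mul_div, div_lt_iff₀ (by positivity)]
      nlinarith
    linarith

end Pool.Agent.LPW.H1
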