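import Pool.Agent.LPW.StmtsF

/-!
Squad LPW, row GRO: elements of small growth are algebraic.
-/

set_option autoImplicit false

namespace Pool.Agent.LPW.H1

open Polynomial NumberField Filter Topology
open Pool.Agent.LUB (sp spr)
open Pool.Agent.LPW

/-- coefficients of a monic polynomial with small roots -/
theorem coeff_bound {n : ℕ} (z : Fin n → ℂ) {B : ℝ} (hB : 1 ≤ B) (hz : ∀ j, ‖z j‖ ≤ B)
    (s : Finset (Fin n)) : ∀ l : ℕ, ‖(∏ j ∈ s, (X - C (z j))).coeff l‖ ≤ (2 * B) ^ s.card := by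
  induction s using Finset.induction_on with
  | empty =>
    intro l
    rw [Finset.prod_empty, Finset.card_empty, pow_zero, Polynomial.coeff_one]
    split_ifs <;> simp
  | insert a s ha ih =>
    intro l
    have hM : (0 : ℝ) ≤ (2 * B) ^ s.card := by positivity
    rw [Finset.prod_insert ha, Finset.card_insert_of_notMem ha, sub_mul, Polynomial.coeff_sub,
      Polynomial.coeff_C_mul, pow_succ]
    have h1 : ‖(X * ∏ j ∈ s, (X - C (z j))).coeff l‖ ≤ (2 * B) ^ s.card := by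
      rcases l with _ | l
      · rw [Polynomial.coeff_X_mul_zero, norm_zero]
        exact hM
      · rw [Polynomial.coeff_X_mul]
        exact ih l
    have h2 : ‖z a * (∏ j ∈ s, (X - C (z j))).coeff l‖ ≤ B * (2 * B) ^ s.card := by
      rw [norm_mul]
      exact mul_le_mul (hz a) (ih l) (norm_nonneg _) (by linarith)
    have h3 := norm_sub_le ((X * ∏ j ∈ s, (X - C (z j))).coeff l)
      (z a * (∏ j ∈ s, (X - C (z j))).coeff l)
    nlinarith

/-- a nonconstant polynomial grows at least linearly -/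
theorem growth (P : ℤ[X]) (hP : P.natDegree ≠ 0) (𝒰 : Filter ℕ) [𝒰.NeBot]
    (h𝒰 : 𝒰 ≤ Filter.atTop) (A κ : ℝ) (hA : 0 ≤ A) (hκ : κ < 1)
    (h : ∀ᶠ t in 𝒰, |((P.eval ((t : ℕ) : ℤ) : ℤ) : ℝ)| ≤ A * (t : ℝ) ^ κ) : False := by
  obtain ⟨Q, hQ⟩ : ∃ Q : ℝ[X], Q = P.map (Int.castRingHom ℝ) := ⟨_, rfl⟩
  have hinj : Function.Injective (Int.castRingHom ℝ) := Int.cast_injective
  have hP0 : P ≠ 0 := by
    intro h0
    rw [h0, natDegree_zero] at hP
    exact hP rfl
  have hdQ : Q.degree = (X ^ P.natDegree : ℝ[X]).degree := by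
    rw [hQ, degree_map_eq_of_injective hinj, degree_X_pow, degree_eq_natDegree hP0]
  have hlim := Polynomial.div_tendsto_leadingCoeff_div_of_degree_eq Q (X ^ P.natDegree) hdQ
  have hcast : Tendsto (fun t : ℕ => (t : ℝ)) 𝒰 atTop :=
    tendsto_natCast_atTop_atTop.mono_left h𝒰
  have hlim' := hlim.comp hcast
  have hz : Tendsto (fun t : ℕ => A * (t : ℝ) ^ (-(1 - κ))) 𝒰 (𝓝 0) := by
    have h1 := ((tendsto_rpow_neg_atTop (y := 1 - κ) (by linarith)).comp hcast).const_mul A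
    rw [mul_zero] at h1
    exact h1
  have hle : ∀ᶠ t in 𝒰, ‖((fun x : ℝ => eval x Q / eval x (X ^ P.natDegree)) ∘
      fun t : ℕ => (t : ℝ)) t‖ ≤ A * (t : ℝ) ^ (-(1 - κ)) := by
    filter_upwards [h, h𝒰 (eventually_ge_atTop 1)] with t ht ht1
    have ht1' : (1 : ℝ) ≤ (t : ℝ) := by exact_mod_cast ht1
    have ht0 : (0 : ℝ) < (t : ℝ) := by linarith
    have he : eval (t : ℝ) Q = ((P.eval ((t : ℕ) : ℤ) : ℤ) : ℝ) := by
      rw [hQ, eval_map, ← Int.cast_natCast (R := ℝ) t]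
      exact eval₂_at_intCast (Int.castRingHom ℝ) _
    rw [Function.comp_apply, he, eval_pow, eval_X, Real.norm_eq_abs, abs_div,
      abs_of_pos (pow_pos ht0 _), div_le_iff₀ (pow_pos ht0 _)]
    refine ht.trans ?_
    have h1 : (t : ℝ) ^ κ = (t : ℝ) ^ (-(1 - κ)) * (t : ℝ) := by
      rw [← Real.rpow_add_one ht0.ne']
      congr 1
      ring
    have h2 : (t : ℝ) ≤ (t : ℝ) ^ P.natDegree := le_self_pow₀ ht1' hP
    have h3 : 0 ≤ A * (t : ℝ) ^ (-(1 - κ)) := mul_nonneg hA (Real.rpow_nonneg ht0.le _)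
    calc A * (t : ℝ) ^ κ = A * (t : ℝ) ^ (-(1 - κ)) * (t : ℝ) := by rw [h1]; ring
      _ ≤ _ := mul_le_mul_of_nonneg_left h2 h3
  have h0 := squeeze_zero_norm' hle hz
  have h1 := tendsto_nhds_unique hlim' h0
  rw [leadingCoeff_X_pow, div_one, hQ, leadingCoeff_map_of_injective hinj] at h1
  have h1' : ((P.leadingCoeff : ℤ) : ℝ) = 0 := h1
  have h2 : P.leadingCoeff = 0 := by exact_mod_cast h1'
  exact hP0 (leadingCoeff_eq_zero.1 h2)

theorem spr_map {S S' : Type} [CommRing S] [CommRing S'] (φ : S →+* S') (g : ℤ[X][X]) (T : S) :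
    (spr g T).map φ = spr g (φ T) := by
  unfold spr
  rw [Polynomial.map_map]
  congr 1
  refine Polynomial.ringHom_ext' (RingHom.ext_int _ _) ?_
  simp

theorem gro : GroStmt := by
  intro hchg Ω _ _ T hT f w n θ hθ hf hfT s hs x hx 𝒰 _ h𝒰 δ hδ hδn hsm
  -- the degree of `f`
  have hfn : f.natDegree = n := by
    have h1 : (spr f T).natDegree = f.natDegree := hf.natDegree_map _
    rw [← h1, hfT, natDegree_prod_of_monic _ _ fun j _ => monic_X_sub_C _]
    simp
  obtain ⟨g, hgm, hgn, -, -, hg⟩ := hchg ℤ[X] (fun _ => ⊤) (fun _ _ _ => le_rfl) trivial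
    (fun _ _ _ _ _ _ => trivial) n (max n w.natDegree) f w hf hfn (fun _ => trivial)
    (le_max_right _ _) (fun _ => trivial)
  have hgT : spr g T = ∏ j, (X - C (x j : Ω)) := by
    have h1 := hg Ω (eval₂RingHom (Int.castRingHom Ω) T) θ hθ hfT
    have h2 : ∏ j, (X - C (x j : Ω)) =
        ∏ j, (X - C ((w.map (eval₂RingHom (Int.castRingHom Ω) T)).eval (θ j))) :=
      Finset.prod_congr rfl fun j _ => by rw [hx j]; rfl
    rw [h2]
    exact h1
  -- the identity over `B`
  obtain ⟨TB, hTB⟩ : ∃ TB : Algebra.adjoin ℤ ({T} ∪ Set.range θ),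
      TB = ⟨T, Algebra.subset_adjoin (by simp)⟩ := ⟨_, rfl⟩
  have hgB : spr g TB = ∏ j, (X - C (x j)) := by
    apply Polynomial.map_injective (Algebra.adjoin ℤ ({T} ∪ Set.range θ)).val.toRingHom
      Subtype.val_injective
    rw [spr_map, Polynomial.map_prod]
    have h1 : (Algebra.adjoin ℤ ({T} ∪ Set.range θ)).val.toRingHom TB = T := by
      rw [hTB]
      rfl
    rw [h1, hgT]
    refine Finset.prod_congr rfl fun j _ => ?_
    rw [Polynomial.map_sub, Polynomial.map_X, Polynomial.map_C]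
    rfl
  have hgt : ∀ t : ℕ, spr g (t : ℂ) = ∏ j, (X - C (s t (x j))) := by
    intro t
    have h1 := congrArg (Polynomial.map (s t)) hgB
    rw [spr_map, Polynomial.map_prod, hTB, hs t] at h1
    rw [h1]
    refine Finset.prod_congr rfl fun j _ => ?_
    rw [Polynomial.map_sub, Polynomial.map_X, Polynomial.map_C]
  -- the coefficients are constant
  have hconst : ∀ l, (g.coeff l).natDegree = 0 := by
    intro l
    by_contra hl
    refine growth (g.coeff l) hl 𝒰 h𝒰 (2 ^ n) (δ * n) (by positivity) hδn ?_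
    have h1 : ∀ᶠ t in 𝒰, ∀ j, ‖s t (x j)‖ ≤ (t : ℝ) ^ δ := eventually_all.2 hsm
    filter_upwards [h1, h𝒰 (eventually_ge_atTop 1)] with t ht ht1
    have ht1' : (1 : ℝ) ≤ (t : ℝ) := by exact_mod_cast ht1
    have hB : (1 : ℝ) ≤ (t : ℝ) ^ δ := Real.one_le_rpow ht1' hδ
    have h2 := coeff_bound (fun j => s t (x j)) hB ht Finset.univ l
    rw [← hgt t, Finset.card_univ, Fintype.card_fin] at h2
    have h3 : (spr g (t : ℂ)).coeff l = (((g.coeff l).eval ((t : ℕ) : ℤ) : ℤ) : ℂ) := by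
      unfold spr
      rw [Polynomial.coeff_map, coe_eval₂RingHom, ← Int.cast_natCast (R := ℂ) t]
      exact eval₂_at_intCast (Int.castRingHom ℂ) _
    rw [h3, Complex.norm_intCast] at h2
    refine h2.trans (le_of_eq ?_)
    rw [mul_pow, Real.rpow_mul (by linarith), Real.rpow_natCast]
  -- the conclusion
  intro j
  obtain ⟨G, hG⟩ : ∃ G : ℤ[X], G = g.map (evalRingHom 0) := ⟨_, rfl⟩
  have hGm : G.Monic := by
    rw [hG]
    exact hgm.map _
  have hGT : G.map (Int.castRingHom Ω) = spr g T := by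
    unfold spr
    refine Polynomial.ext fun l => ?_
    rw [hG, Polynomial.coeff_map, Polynomial.coeff_map, Polynomial.coeff_map,
      eq_C_of_natDegree_eq_zero (hconst l)]
    simp
  refine ⟨G.map (Int.castRingHom ℚ), (hGm.map _).ne_zero, ?_⟩
  have h1 : aeval (x j : Ω) (G.map (Int.castRingHom ℚ)) =
      (G.map (Int.castRingHom Ω)).eval (x j : Ω) := by
    rw [aeval_def, eval₂_map, eval_map]
    congr 1
    exact RingHom.ext_int _ _
  rw [h1, hGT, hgT, eval_prod]
  refine Finset.prod_eq_zero (Finset.mem_univ j) ?_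
  rw [eval_sub, eval_X, eval_C, sub_self]

end Pool.Agent.LPW.H1
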